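import Pool.Agent.U548.AC.Neg
import Pool.Agent.U548.AC.Irr

/-!
# MP_3119c3_an: a complex symmetric matrix that is unitarily equivalent to a truncated Toeplitz
operator but is not the matrix of any in a modified Aleksandrov-Clark basis

For every `n ≥ 3` the matrix `mat n` is a complex symmetric form of the nilpotent Jordan block of
size `n`, i.e. of the compressed shift on the model space of `zⁿ`, obtained from an orthonormal
basis of vectors fixed by the conjugation. For `n = 3` it is

  `(1/2) [[0, 1 - i, 0], [1 - i, 0, 1 + i], [0, 1 + i, 0]]`.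

It is irreducible, and it is not the matrix of a truncated Toeplitz operator with respect to a
modified Aleksandrov-Clark basis: for such a matrix `M_{ij} = r_{ij} (τ_i - τ_j)`, `i ≠ j`, with
real `r_{ij} ≠ 0`, so that `M_{ij} = 0` forces `M_{jl} = c M_{il}` with a real `c ≠ 0`; but here
`M_{0,n-1} = 0` and `M_{n-1,1} = i M_{0,1} ≠ 0`.

The definitions `zc`, `IsModAC`, `IsModACMatrix`, `UECompressedShift`, `mat` are in
`Pool.Agent.U548.AC.Defs`, those of `L2`, `InH2`, `IsInner`, `InModel`, `IsTTO`, `UnitaryOnto` in
`Pool.Agent.R307.TtoDef3`.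
-/

set_option autoImplicit false

namespace Pool.Agent.Results.MP_3119c3_an.JordanBlock

open Pool.Agent.U548.AC

lemma mat_val {n : ℕ} (i j : Fin n) (a b : ℕ) (hi : (i : ℕ) = a) (hj : (j : ℕ) = b) :
    mat n i j = ((if a = b + 1 then 1 else 0) + (if b = a + 1 then 1 else 0) +
      (if a + b = n then Complex.I else 0) - (if a + b + 2 = n then Complex.I else 0)) / 2 := by
  subst hi
  subst hj
  rfl

/-- **Negative answer to Q1 for every size `n = m + 3 ≥ 3`, with an irreducible matrix.** -/
theorem result (m : ℕ) :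
    (mat (m + 3)).IsSymm ∧ UECompressedShift (mat (m + 3)) ∧
    (∀ X : Matrix (Fin (m + 3)) (Fin (m + 3)) ℂ, X * mat (m + 3) = mat (m + 3) * X →
      X * (mat (m + 3)).conjTranspose = (mat (m + 3)).conjTranspose * X → ∃ c : ℂ, X = c • 1) ∧
    ¬ IsModACMatrix (mat (m + 3)) := by
  refine ⟨mat_symm _, ue _ (by omega), irreducible _, fun h => ?_⟩
  have h0 : mat (m + 3) 0 (Fin.last (m + 2)) = 0 := by
    rw [mat_val 0 (Fin.last (m + 2)) 0 (m + 2) rfl rfl, if_neg (by omega), if_neg (by omega),
      if_neg (by omega), if_neg (by omega)]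
    norm_num
  have hv1 : ((1 : Fin (m + 3)) : ℕ) = 1 := rfl
  have hne1 : (0 : Fin (m + 3)) ≠ Fin.last (m + 2) := by
    intro h
    have := congrArg Fin.val h
    simp at this
  have hne2 : (0 : Fin (m + 3)) ≠ 1 := by
    intro h
    have := congrArg Fin.val h
    simp at this
  have hne3 : Fin.last (m + 2) ≠ (1 : Fin (m + 3)) := by
    intro h
    have := congrArg Fin.val h
    rw [hv1] at this
    simp at this
  obtain ⟨c, hc0, hc⟩ := zero_pattern h 0 (Fin.last (m + 2)) 1 hne1 hne2 hne3 h0
  rw [mat_val 0 1 0 1 rfl hv1, mat_val (Fin.last (m + 2)) 1 (m + 2) 1 rfl hv1] at hc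
  rcases Nat.eq_zero_or_pos m with rfl | hm
  · norm_num at hc
    have h1 := congrArg Complex.re hc
    have h2 := congrArg Complex.im hc
    simp at h1 h2
    linarith
  · rw [if_neg (by omega), if_neg (by omega), if_pos (by omega), if_neg (by omega), if_neg (by omega),
      if_pos (by omega), if_neg (by omega), if_neg (by omega)] at hc
    have h1 := congrArg Complex.re hc
    simp at h1
    exact hc0 h1

end Pool.Agent.Results.MP_3119c3_an.JordanBlock
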